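import Mathlib

/-!
# Discrepancy lower bound for the Sylvester-Hadamard set system
-/

namespace Pool.Agent.Helper18.HD

open Finset

/-- The characters of `{0,1}^k`, with values in `{1, -1}`. -/
def chr {k : ℕ} (v w : Fin k → Bool) : ℤ := ∏ i, (if v i && w i then -1 else 1)

lemma chr_eq_or {k : ℕ} (v w : Fin k → Bool) : chr v w = 1 ∨ chr v w = -1 := by
  unfold chr
  induction (Finset.univ : Finset (Fin k)) using Finset.induction_on with
  | empty => simp
  | insert a s ha ih =>
    rw [Finset.prod_insert ha]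
    rcases ih with ih | ih <;> rw [ih] <;> by_cases h : (v a && w a) = true <;> simp [h]

lemma chr_orth {k : ℕ} (v v' : Fin k → Bool) :
    ∑ w : Fin k → Bool, chr v w * chr v' w = if v = v' then 2 ^ k else 0 := by
  have h1 : ∀ w : Fin k → Bool, chr v w * chr v' w =
      ∏ i, ((if v i && w i then (-1 : ℤ) else 1) * (if v' i && w i then -1 else 1)) := by
    intro w
    unfold chr
    rw [Finset.prod_mul_distrib]
  simp_rw [h1]
  have h2 := Finset.prod_univ_sum (ι := Fin k) (κ := fun _ => Bool) (R := ℤ)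
    (fun _ => (Finset.univ : Finset Bool))
    (fun i b => ((if v i && b then (-1 : ℤ) else 1) * (if v' i && b then -1 else 1)))
  have h3 : Fintype.piFinset (fun _ : Fin k => (Finset.univ : Finset Bool)) = Finset.univ := by
    ext x; simp
  rw [h3] at h2
  rw [← h2]
  by_cases h : v = v'
  · subst h
    rw [if_pos rfl]
    have : ∀ i : Fin k, ∑ b : Bool, ((if v i && b then (-1 : ℤ) else 1) *
        (if v i && b then -1 else 1)) = 2 := by
      intro i
      cases v i <;> simp
    simp only [this]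
    simp
  · rw [if_neg h]
    have : ∃ i, v i ≠ v' i := by
      by_contra hcon
      push Not at hcon
      exact h (funext hcon)
    obtain ⟨i, hi⟩ := this
    apply Finset.prod_eq_zero (Finset.mem_univ i)
    cases h1 : v i <;> cases h2 : v' i <;> simp_all

lemma chr_zero {k : ℕ} (v : Fin k → Bool) : chr v (fun _ => false) = 1 := by
  simp [chr]

/-- Parseval. -/
lemma parseval {k : ℕ} (χ : (Fin k → Bool) → ℤ) (hχ : ∀ v, χ v = 1 ∨ χ v = -1) :
    ∑ w : Fin k → Bool, (∑ v : Fin k → Bool, χ v * chr v w) ^ 2 = 2 ^ k * 2 ^ k := by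
  have h1 : ∀ w : Fin k → Bool, (∑ v : Fin k → Bool, χ v * chr v w) ^ 2 =
      ∑ v : Fin k → Bool, ∑ v' : Fin k → Bool, (χ v * χ v') * (chr v w * chr v' w) := by
    intro w
    rw [sq, Finset.sum_mul_sum]
    refine Finset.sum_congr rfl fun v _ => Finset.sum_congr rfl fun v' _ => ?_
    ring
  simp_rw [h1]
  rw [Finset.sum_comm]
  have h2 : ∀ v : Fin k → Bool, ∑ w : Fin k → Bool, ∑ v' : Fin k → Bool,
      (χ v * χ v') * (chr v w * chr v' w) = 2 ^ k := by
    intro v
    rw [Finset.sum_comm]
    simp_rw [← Finset.mul_sum, chr_orth]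
    rw [Finset.sum_eq_single v]
    · rw [if_pos rfl]
      rcases hχ v with h | h <;> rw [h] <;> ring
    · intro b _ hb
      rw [if_neg (Ne.symm hb), mul_zero]
    · intro h
      exact absurd (Finset.mem_univ v) h
  simp_rw [h2]
  simp

/-- For every colouring of `{0,1}^k` with values `1, -1`, some set of the Sylvester-Hadamard set
system has discrepancy at least `2^(k/2) / 3`. -/
lemma hadamard_disc {k : ℕ} (χ : (Fin k → Bool) → ℤ) (hχ : ∀ v, χ v = 1 ∨ χ v = -1) (d : ℕ)
    (hd : ∀ w : Fin k → Bool, |∑ v ∈ Finset.univ.filter (fun v => chr v w = 1), χ v| ≤ d) :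
    2 ^ k ≤ 9 * d ^ 2 := by
  have key : ∀ w : Fin k → Bool, (∑ v : Fin k → Bool, χ v * chr v w) ^ 2 ≤ 9 * (d : ℤ) ^ 2 := by
    intro w
    have e1 : ∑ v : Fin k → Bool, χ v * chr v w =
        2 * (∑ v ∈ Finset.univ.filter (fun v => chr v w = 1), χ v)
          - ∑ v ∈ Finset.univ.filter (fun v : Fin k → Bool => chr v (fun _ => false) = 1), χ v := by
      have : Finset.univ.filter (fun v : Fin k → Bool => chr v (fun _ => false) = 1) =
          Finset.univ := by
        ext v; simp [chr_zero]
      rw [this, Finset.sum_filter, Finset.mul_sum, ← Finset.sum_sub_distrib]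
      refine Finset.sum_congr rfl fun v _ => ?_
      rcases chr_eq_or v w with h | h <;> rw [h] <;> simp <;> ring
    have a1 := hd w
    have a2 := hd (fun _ => false)
    rw [e1]
    have : |2 * (∑ v ∈ Finset.univ.filter (fun v => chr v w = 1), χ v)
          - ∑ v ∈ Finset.univ.filter (fun v : Fin k → Bool => chr v (fun _ => false) = 1), χ v|
          ≤ 3 * d := by
      rw [abs_le] at a1 a2 ⊢
      constructor
      · linarith [a1.1, a1.2, a2.1, a2.2]
      · linarith [a1.1, a1.2, a2.1, a2.2]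
    have h2 := sq_le_sq' (abs_le.mp this).1 (abs_le.mp this).2
    nlinarith [h2]
  have h1 := parseval χ hχ
  have h2 : ∑ w : Fin k → Bool, (∑ v : Fin k → Bool, χ v * chr v w) ^ 2 ≤
      ∑ _w : Fin k → Bool, 9 * (d : ℤ) ^ 2 := Finset.sum_le_sum fun w _ => key w
  rw [h1] at h2
  simp only [Finset.sum_const, Finset.card_univ, Fintype.card_pi, Fintype.card_bool,
    Finset.prod_const, Fintype.card_fin, nsmul_eq_mul] at h2
  push_cast at h2
  have h3 : (0 : ℤ) < 2 ^ k := by positivity
  have h4 : (2 : ℤ) ^ k ≤ 9 * (d : ℤ) ^ 2 := le_of_mul_le_mul_left h2 h3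
  exact_mod_cast h4

end Pool.Agent.Helper18.HD
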