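import Pool.Agent.Helper18.HD.IncGraph
import Pool.Agent.Helper18.HD.Hadamard

/-!
# Small hereditary discrepancy implies nowhere density (monotone classes)
-/

namespace Pool.Agent.Helper18.HD

open Pool.Agent.Helper28.HD SimpleGraph

open Classical in
lemma disc_spec {α : Type} (𝒮 : Set (Set α)) (X : Finset α) :
    ∃ χ : α → ℤ, (∀ u, χ u = 1 ∨ χ u = -1) ∧
    ∀ S ∈ 𝒮, |∑ u ∈ X.filter (· ∈ S), χ u| ≤ disc 𝒮 X := by
  have hne : {d : ℕ | ∃ χ : α → ℤ, (∀ u, χ u = 1 ∨ χ u = -1) ∧
    ∀ S ∈ 𝒮, |∑ u ∈ X.filter (· ∈ S), χ u| ≤ d}.Nonempty := by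
    refine ⟨X.card, fun _ => 1, fun _ => Or.inl rfl, fun S _ => ?_⟩
    simp only [Finset.sum_const, nsmul_eq_mul, mul_one]
    rw [abs_of_nonneg (by positivity)]
    exact_mod_cast Finset.card_filter_le _ _
  exact Nat.sInf_mem hne

lemma disc_le_herdisc {α : Type} [Finite α] (𝒮 : Set (Set α)) (X : Finset α)
    (hX : (X : Set α) ⊆ ⋃₀ 𝒮) : disc 𝒮 X ≤ herdisc 𝒮 := by
  apply le_csSup
  · apply Set.Finite.bddAbove
    apply Set.Finite.subset (Set.finite_range (fun X : Finset α => disc 𝒮 X))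
    rintro d ⟨X, -, rfl⟩
    exact ⟨X, rfl⟩
  · exact ⟨X, hX, rfl⟩

open Classical in
/-- The lower bound for a graph that encodes the Sylvester-Hadamard set system. -/
lemma herdisc_lower {V : Type} [Finite V] (G : SimpleGraph V) (k l : ℕ)
    (el st : (Fin k → Bool) → V) (hel : Function.Injective el)
    (h : ∀ v w, reach G l (el v) (st w) ↔ chr v w = 1) :
    2 ^ k ≤ 9 * herdisc (setSystem G (walkF l)) ^ 2 := by
  set 𝒮 := setSystem G (walkF l) with h𝒮
  let g : (Fin k → Bool) → (Fin 1 → V) := fun v _ => el v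
  have hg : Function.Injective g := fun v v' hv => hel (congrFun hv 0)
  set X : Finset (Fin 1 → V) := Finset.univ.image g with hXdef
  have hS : ∀ w, {a : Fin 1 → V | Sat G (walkF l) a (fun _ => st w)} ∈ 𝒮 :=
    fun w => ⟨fun _ => st w, rfl⟩
  have hX : (X : Set (Fin 1 → V)) ⊆ ⋃₀ 𝒮 := by
    intro a ha
    obtain ⟨v, -, rfl⟩ := Finset.mem_image.1 (Finset.mem_coe.1 ha)
    refine ⟨_, hS (fun _ => false), ?_⟩
    change Sat G (walkF l) (g v) _
    rw [sat_walkF]
    exact (h v _).2 (chr_zero v)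
  obtain ⟨χ, hχ, hd⟩ := disc_spec 𝒮 X
  have h1 := hadamard_disc (k := k) (fun v => χ (g v)) (fun v => hχ _) (disc 𝒮 X) (by
    intro w
    have h2 := hd _ (hS w)
    have h3 : ∑ u ∈ X.filter (· ∈ {a : Fin 1 → V | Sat G (walkF l) a (fun _ => st w)}), χ u =
        ∑ v ∈ Finset.univ.filter (fun v => chr v w = 1), χ (g v) := by
      rw [hXdef, Finset.filter_image, Finset.sum_image (fun a _ b _ hab => hg hab)]
      refine Finset.sum_congr ?_ fun _ _ => rfl
      ext v
      simp only [Finset.mem_filter, Finset.mem_univ, true_and]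
      change Sat G (walkF l) (g v) _ ↔ _
      rw [sat_walkF]
      exact h v w
    rw [h3] at h2
    exact h2)
  have h2 := disc_le_herdisc 𝒮 X hX
  calc 2 ^ k ≤ 9 * disc 𝒮 X ^ 2 := h1
    _ ≤ 9 * herdisc 𝒮 ^ 2 := by gcongr

/-- **The converse direction**: a monotone class with small hereditary discrepancy is nowhere
dense. -/
theorem converse (C : GraphClass) (hC : IsMonotone C) (h : HasSmallHerdisc C) :
    Pool.Agent.Helper28.HD.IsNowhereDense C := by
  by_contra hcon
  unfold Pool.Agent.Helper28.HD.IsNowhereDense at hcon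
  push Not at hcon
  obtain ⟨r, hr⟩ := hcon
  obtain ⟨c, hc⟩ := h 1 1 (walkF (r + 1)) (1 / 8) (by norm_num)
  -- the bound obtained for every `k`
  have key : ∀ k : ℕ, ((2 : ℝ) ^ k) ^ 4 ≤
      9 ^ 4 * (c ^ 8 * ((r + 1) * (2 * 2 ^ k + 1) ^ 2)) := by
    intro k
    set N : ℕ := 2 ^ k with hN
    have hcard : Fintype.card (Fin k → Bool) = N := by simp [hN]
    let e : (Fin k → Bool) ≃ Fin N := Fintype.equivFinOfCardEq hcard
    let I : Fin N → Fin N → Prop := fun a b => chr (e.symm a) (e.symm b) = 1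
    set H : SimpleGraph (Fin (Fintype.card (SV r (N + N)))) := (incG r N I).overFin rfl with hH
    let f : (incG r N I) ≃g H := (incG r N I).overFinIso rfl
    obtain ⟨n, G, hG, hsub⟩ := hr (N + N)
    have hHG : H ⊑ G := by
      refine SimpleGraph.IsContained.trans ?_ hsub
      refine SimpleGraph.IsContained.trans (B := incG r N I) ?_ ?_
      · exact ⟨f.symm.toCopy⟩
      · exact SimpleGraph.IsContained.of_le (incG_le r N I)
    have hCH : C _ H := hC _ _ G H hG hHG
    have hb := hc _ H hCH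
    have hreach : ∀ (l : ℕ) (x y : SV r (N + N)),
        reach H l (f x) (f y) ↔ reach (incG r N I) l x y := by
      intro l
      induction l with
      | zero => intro x y; simp [reach]
      | succ l ih =>
        intro x y
        simp only [reach]
        constructor
        · rintro ⟨z, hz, hzy⟩
          obtain ⟨z', rfl⟩ := f.surjective z
          exact ⟨z', f.map_rel_iff.1 hz, (ih _ _).1 hzy⟩
        · rintro ⟨z, hz, hzy⟩
          exact ⟨f z, f.map_rel_iff.2 hz, (ih _ _).2 hzy⟩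
    have hlow := herdisc_lower H k (r + 1) (fun v => f (.inl (Fin.castAdd N (e v))))
      (fun v => f (.inl (Fin.natAdd N (e v))))
      (by
        intro v v' hv
        have h1 := f.injective hv
        have h2 := congrArg Fin.val (Sum.inl.inj h1)
        simp only [Fin.val_castAdd] at h2
        exact e.injective (Fin.ext h2))
      (by
        intro v w
        rw [hreach, reach_iff]
        simp [I])
    set D := herdisc (setSystem H (walkF (r + 1))) with hD
    have hm : (⋃₀ setSystem H (walkF (r + 1))).ncard ≤ (r + 1) * (N + N + 1) ^ 2 := by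
      calc (⋃₀ setSystem H (walkF (r + 1))).ncard ≤
            (Set.univ : Set (Fin 1 → Fin (Fintype.card (SV r (N + N))))).ncard :=
            Set.ncard_le_ncard (Set.subset_univ _) Set.finite_univ
        _ = Fintype.card (SV r (N + N)) := by
            rw [Set.ncard_univ]; simp
        _ ≤ _ := card_SV r (N + N)
    have h1 : (D : ℝ) ^ 8 ≤ c ^ 8 * ((⋃₀ setSystem H (walkF (r + 1))).ncard : ℝ) := by
      calc (D : ℝ) ^ 8 ≤
            (c * ((⋃₀ setSystem H (walkF (r + 1))).ncard : ℝ) ^ (1 / 8 : ℝ)) ^ 8 := by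
            gcongr
        _ = c ^ 8 * ((⋃₀ setSystem H (walkF (r + 1))).ncard : ℝ) := by
            rw [mul_pow]
            congr 1
            rw [← Real.rpow_natCast, ← Real.rpow_mul (by positivity)]
            norm_num
    have h2 : ((⋃₀ setSystem H (walkF (r + 1))).ncard : ℝ) ≤ (r + 1) * (2 * 2 ^ k + 1) ^ 2 := by
      have : ((⋃₀ setSystem H (walkF (r + 1))).ncard : ℝ) ≤
          (((r + 1) * (N + N + 1) ^ 2 : ℕ) : ℝ) := by exact_mod_cast hm
      refine this.trans (le_of_eq ?_)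
      rw [hN]
      push_cast
      ring
    have h3 : ((2 : ℝ) ^ k) ≤ 9 * (D : ℝ) ^ 2 := by exact_mod_cast hlow
    calc ((2 : ℝ) ^ k) ^ 4 ≤ (9 * (D : ℝ) ^ 2) ^ 4 := by gcongr
      _ = 9 ^ 4 * (D : ℝ) ^ 8 := by ring
      _ ≤ 9 ^ 4 * (c ^ 8 * ((⋃₀ setSystem H (walkF (r + 1))).ncard : ℝ)) := by gcongr
      _ ≤ 9 ^ 4 * (c ^ 8 * ((r + 1) * (2 * 2 ^ k + 1) ^ 2)) := by
          have : 0 ≤ c ^ 8 := by positivity
          gcongr
  -- contradiction for large `k`
  set A : ℝ := 9 ^ 4 * (c ^ 8 * ((r + 1) * 9)) with hA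
  obtain ⟨k, hk⟩ := pow_unbounded_of_one_lt A (by norm_num : (1 : ℝ) < 2)
  have h1 := key k
  set x : ℝ := 2 ^ k with hx
  have hx1 : 1 ≤ x := one_le_pow₀ (by norm_num)
  have hc8 : 0 ≤ c ^ 8 := by positivity
  have h2 : x ^ 4 ≤ A * x ^ 2 := by
    calc x ^ 4 ≤ 9 ^ 4 * (c ^ 8 * ((r + 1) * (2 * x + 1) ^ 2)) := h1
      _ ≤ 9 ^ 4 * (c ^ 8 * ((r + 1) * (3 * x) ^ 2)) := by
          gcongr
          linarith
      _ = A * x ^ 2 := by rw [hA]; ring
  have h3 : x ^ 2 ≤ A := by
    have : x ^ 2 * x ^ 2 ≤ A * x ^ 2 := by calc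
      x ^ 2 * x ^ 2 = x ^ 4 := by ring
      _ ≤ _ := h2
    exact le_of_mul_le_mul_right this (by positivity)
  nlinarith [h3, hk, hx1]

end Pool.Agent.Helper18.HD
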