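import Pool.Agent.Helper18.HD.WalkFormula

/-!
# Subdivided incidence graphs inside subdivisions of complete graphs
-/

namespace Pool.Agent.Helper18.HD

open Pool.Agent.Helper28.HD

/-- The vertices of the `r`-subdivision of `K_t`. -/
abbrev SV (r t : ℕ) : Type := Fin t ⊕ ({p : Fin t × Fin t // p.1 < p.2} × Fin r)

/-- The pair consisting of the element vertex `a` and the set vertex `b`. -/
def pr (N : ℕ) (a b : Fin N) : {p : Fin (N + N) × Fin (N + N) // p.1 < p.2} :=
  ⟨(Fin.castAdd N a, Fin.natAdd N b), by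
    rw [Fin.lt_def]; simp only [Fin.val_castAdd, Fin.val_natAdd]; omega⟩

lemma pr_inj {N : ℕ} {a b a' b' : Fin N} (h : pr N a b = pr N a' b') : a = a' ∧ b = b' := by
  have h1 := congrArg (fun q => q.1.1.1) h
  have h2 := congrArg (fun q => q.1.2.1) h
  simp only [pr, Fin.val_castAdd, Fin.val_natAdd] at h1 h2
  exact ⟨Fin.ext h1, Fin.ext (by omega)⟩

/-- The `r`-subdivision of the bipartite incidence graph of `I`. -/
def incG (r N : ℕ) (I : Fin N → Fin N → Prop) : SimpleGraph (SV r (N + N)) :=
  SimpleGraph.fromRel fun x y => ∃ (a b : Fin N) (l : ℕ), I a b ∧ l ≤ r ∧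
    x = subdivNode r (N + N) (pr N a b) l ∧ y = subdivNode r (N + N) (pr N a b) (l + 1)

lemma incG_le (r N : ℕ) (I : Fin N → Fin N → Prop) : incG r N I ≤ subdivK r (N + N) := by
  intro x y h
  rw [incG, SimpleGraph.fromRel_adj] at h
  rw [subdivK, SimpleGraph.fromRel_adj]
  obtain ⟨hne, h⟩ := h
  refine ⟨hne, ?_⟩
  rcases h with ⟨a, b, l, _, hl, hx, hy⟩ | ⟨a, b, l, _, hl, hx, hy⟩
  · exact Or.inl ⟨_, l, hl, hx, hy⟩
  · exact Or.inr ⟨_, l, hl, hx, hy⟩

section nodes

variable {r t : ℕ}

lemma node_zero (p : {p : Fin t × Fin t // p.1 < p.2}) : subdivNode r t p 0 = .inl p.1.1 := by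
  simp [subdivNode]

lemma node_last (p : {p : Fin t × Fin t // p.1 < p.2}) :
    subdivNode r t p (r + 1) = .inl p.1.2 := by
  simp [subdivNode]

lemma node_mid (p : {p : Fin t × Fin t // p.1 < p.2}) (l : ℕ) (h0 : 1 ≤ l) (h1 : l ≤ r) :
    subdivNode r t p l = .inr (p, ⟨l - 1, by omega⟩) := by
  unfold subdivNode
  rw [if_neg (by omega), dif_pos (by omega)]

end nodes

lemma node_ne {r t : ℕ} (p : {p : Fin t × Fin t // p.1 < p.2}) (l : ℕ) (hl : l ≤ r) :
    subdivNode r t p l ≠ subdivNode r t p (l + 1) := by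
  by_cases h0 : l = 0
  · subst h0
    rw [node_zero]
    by_cases hr : r = 0
    · subst hr
      rw [node_last]
      intro h
      exact absurd (Sum.inl.inj h) (ne_of_lt p.2)
    · rw [node_mid _ _ (by omega) (by omega)]
      simp
  · rw [node_mid p l (by omega) hl]
    by_cases hlr : l = r
    · subst hlr
      rw [node_last]
      simp
    · rw [node_mid p (l + 1) (by omega) (by omega)]
      intro h
      have h2 := (Prod.mk.inj (Sum.inr.inj h)).2
      have h3 := congrArg Fin.val h2
      simp only at h3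
      omega

lemma incG_adj_path {r N : ℕ} {I : Fin N → Fin N → Prop} {a b : Fin N} (h : I a b) (l : ℕ)
    (hl : l ≤ r) : (incG r N I).Adj (subdivNode r (N + N) (pr N a b) l)
      (subdivNode r (N + N) (pr N a b) (l + 1)) := by
  rw [incG, SimpleGraph.fromRel_adj]
  exact ⟨node_ne _ l hl, Or.inl ⟨a, b, l, h, hl, rfl, rfl⟩⟩

lemma reach_path {r N : ℕ} {I : Fin N → Fin N → Prop} {a b : Fin N} (h : I a b) (l : ℕ)
    (hl : l ≤ r + 1) : reach (incG r N I) l (.inl (Fin.castAdd N a))
      (subdivNode r (N + N) (pr N a b) l) := by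
  induction l with
  | zero => rw [node_zero]; rfl
  | succ l ih =>
    rw [reach_succ_right]
    exact ⟨_, ih (by omega), incG_adj_path h l (by omega)⟩

/-- The part of the graph close to the element vertex `a`. -/
def Close (r N : ℕ) (I : Fin N → Fin N → Prop) (a : Fin N) (l : ℕ) (x : SV r (N + N)) : Prop :=
  x = .inl (Fin.castAdd N a) ∨ ∃ (b : Fin N) (j : ℕ), I a b ∧ 1 ≤ j ∧ j ≤ l ∧
    x = subdivNode r (N + N) (pr N a b) j

lemma castAdd_ne_natAdd {N : ℕ} (a b : Fin N) : Fin.castAdd N a ≠ Fin.natAdd N b := by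
  intro h
  have := congrArg Fin.val h
  simp only [Fin.val_castAdd, Fin.val_natAdd] at this
  omega

lemma node_eq_castAdd {r N : ℕ} {a' b' a : Fin N} {l : ℕ} (hl : l ≤ r + 1)
    (h : subdivNode r (N + N) (pr N a' b') l = .inl (Fin.castAdd N a)) : l = 0 ∧ a' = a := by
  by_cases h0 : l = 0
  · subst h0
    rw [node_zero] at h
    have h1 := congrArg Fin.val (Sum.inl.inj h)
    simp only [pr, Fin.val_castAdd] at h1
    exact ⟨rfl, Fin.ext h1⟩
  · by_cases hr : l = r + 1
    · subst hr
      rw [node_last] at h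
      exact absurd (Sum.inl.inj h).symm (castAdd_ne_natAdd a b')
    · rw [node_mid _ l (by omega) (by omega)] at h
      exact absurd h (by simp)

lemma node_eq_mid {r N : ℕ} {a' b' : Fin N} {p : {p : Fin (N + N) × Fin (N + N) // p.1 < p.2}}
    {l j : ℕ} (hj : 1 ≤ j) (hjr : j ≤ r) (hl : l ≤ r + 1)
    (h : subdivNode r (N + N) (pr N a' b') l = subdivNode r (N + N) p j) :
    l = j ∧ pr N a' b' = p := by
  rw [node_mid p j hj hjr] at h
  by_cases h0 : l = 0
  · subst h0
    rw [node_zero] at h
    exact absurd h (by simp)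
  · by_cases hr : l = r + 1
    · subst hr
      rw [node_last] at h
      exact absurd h (by simp)
    · rw [node_mid _ l (by omega) (by omega)] at h
      have h1 := Prod.mk.inj (Sum.inr.inj h)
      refine ⟨?_, h1.1⟩
      have h3 := congrArg Fin.val h1.2
      simp only at h3
      omega

lemma close_step {r N : ℕ} {I : Fin N → Fin N → Prop} {a : Fin N} {l : ℕ} (hl : l ≤ r)
    {x y : SV r (N + N)} (hx : Close r N I a l x) (hxy : (incG r N I).Adj x y) :
    Close r N I a (l + 1) y := by
  rw [incG, SimpleGraph.fromRel_adj] at hxy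
  obtain ⟨-, hxy⟩ := hxy
  rcases hx with rfl | ⟨b, j, hb, hj1, hjl, rfl⟩
  · rcases hxy with ⟨a', b', l', h', hl', hx, hy⟩ | ⟨a', b', l', h', hl', hy, hx⟩
    · obtain ⟨rfl, rfl⟩ := node_eq_castAdd (by omega) hx.symm
      exact Or.inr ⟨b', 1, h', le_refl _, by omega, hy⟩
    · obtain ⟨h0, -⟩ := node_eq_castAdd (by omega) hx.symm
      omega
  · rcases hxy with ⟨a', b', l', h', hl', hx, hy⟩ | ⟨a', b', l', h', hl', hy, hx⟩
    · obtain ⟨rfl, hp⟩ := node_eq_mid hj1 (by omega) (by omega) hx.symm
      obtain ⟨rfl, rfl⟩ := pr_inj hp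
      exact Or.inr ⟨b', l' + 1, h', by omega, by omega, hy⟩
    · obtain ⟨hjj, hp⟩ := node_eq_mid hj1 (by omega) (by omega) hx.symm
      obtain ⟨rfl, rfl⟩ := pr_inj hp
      by_cases h0 : l' = 0
      · subst h0
        left
        rw [hy, node_zero]
        rfl
      · exact Or.inr ⟨b', l', h', by omega, by omega, hy⟩

lemma close_of_reach {r N : ℕ} {I : Fin N → Fin N → Prop} {a : Fin N} (l : ℕ) (hl : l ≤ r + 1) :
    ∀ x, reach (incG r N I) l (.inl (Fin.castAdd N a)) x → Close r N I a l x := by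
  induction l with
  | zero => intro x hx; exact Or.inl hx.symm
  | succ l ih =>
    intro x hx
    rw [reach_succ_right] at hx
    obtain ⟨z, hz, hzx⟩ := hx
    exact close_step (by omega) (ih (by omega) z hz) hzx

/-- Walks of length `r + 1` from an element vertex to a set vertex. -/
lemma reach_iff {r N : ℕ} {I : Fin N → Fin N → Prop} (a b : Fin N) :
    reach (incG r N I) (r + 1) (.inl (Fin.castAdd N a)) (.inl (Fin.natAdd N b)) ↔ I a b := by
  constructor
  · intro h
    rcases close_of_reach (r + 1) le_rfl _ h with h | ⟨b', j, hb', hj1, hj2, h⟩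
    · exact absurd (Sum.inl.inj h).symm (castAdd_ne_natAdd a b)
    · by_cases hj : j = r + 1
      · subst hj
        rw [node_last] at h
        have h1 := congrArg Fin.val (Sum.inl.inj h)
        simp only [pr, Fin.val_natAdd] at h1
        have : b = b' := Fin.ext (by omega)
        rw [this]
        exact hb'
      · rw [node_mid _ j hj1 (by omega)] at h
        exact absurd h (by simp)
  · intro h
    have := reach_path (r := r) h (r + 1) le_rfl
    rw [node_last] at this
    exact this

lemma card_SV (r t : ℕ) : Fintype.card (SV r t) ≤ (r + 1) * (t + 1) ^ 2 := by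
  rw [Fintype.card_sum, Fintype.card_prod, Fintype.card_fin, Fintype.card_fin]
  have h1 : Fintype.card {p : Fin t × Fin t // p.1 < p.2} ≤ t * t := by
    calc Fintype.card {p : Fin t × Fin t // p.1 < p.2} ≤ Fintype.card (Fin t × Fin t) :=
          Fintype.card_subtype_le _
      _ = t * t := by simp
  nlinarith [h1, Nat.mul_le_mul_right r h1]

end Pool.Agent.Helper18.HD
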