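import Pool.Agent.Helper28.HD.FinalDefs

/-!
# First-order formulas for walks of a given length
-/

namespace Pool.Agent.Helper18.HD

open FirstOrder Language Pool.Agent.Helper28.HD

/-- There is a walk of length exactly `l` from `a` to `b`. -/
def reach {V : Type} (G : SimpleGraph V) : ℕ → V → V → Prop
  | 0, a, b => a = b
  | l + 1, a, b => ∃ z, G.Adj a z ∧ reach G l z b

lemma reach_succ_right {V : Type} (G : SimpleGraph V) (l : ℕ) :
    ∀ a b, reach G (l + 1) a b ↔ ∃ z, reach G l a z ∧ G.Adj z b := by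
  induction l with
  | zero =>
    intro a b
    constructor
    · rintro ⟨z, hz, hzb⟩
      exact ⟨a, rfl, hzb ▸ hz⟩
    · rintro ⟨z, hz, hzb⟩
      exact ⟨b, by rw [show a = z from hz]; exact hzb, rfl⟩
  | succ l ih =>
    intro a b
    constructor
    · rintro ⟨z, hz, hzb⟩
      obtain ⟨y, hy, hyb⟩ := (ih z b).1 hzb
      exact ⟨y, ⟨z, hz, hy⟩, hyb⟩
    · rintro ⟨y, ⟨z, hz, hy⟩, hyb⟩
      exact ⟨z, hz, (ih z b).2 ⟨y, hy, hyb⟩⟩

/-- The formula stating that there is a walk of length `l` from the variable `x` to `y`. -/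
def walkBF {α : Type} : (l n : ℕ) → (x y : α ⊕ Fin n) → Language.graph.BoundedFormula α n
  | 0, _, x, y => (Term.var x) =' (Term.var y)
  | l + 1, n, x, y =>
      ∃' ((adj.boundedFormula₂ (Term.var (Sum.map id Fin.castSucc x))
        (Term.var (Sum.inr (Fin.last n)))) ⊓
        walkBF l (n + 1) (Sum.inr (Fin.last n)) (Sum.map id Fin.castSucc y))

lemma realize_walkBF {V α : Type} (G : SimpleGraph V) (l : ℕ) :
    ∀ (n : ℕ) (x y : α ⊕ Fin n) (v : α → V) (xs : Fin n → V),
      @BoundedFormula.Realize _ V G.structure _ _ (walkBF l n x y) v xs ↔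
        reach G l (Sum.elim v xs x) (Sum.elim v xs y) := by
  let := G.structure
  induction l with
  | zero =>
    intro n x y v xs
    simp [walkBF, reach]
  | succ l ih =>
    intro n x y v xs
    simp only [walkBF, reach, BoundedFormula.realize_ex, BoundedFormula.realize_inf, ih]
    refine exists_congr fun a => ?_
    have h1 : ∀ x : α ⊕ Fin n, Sum.elim v (Fin.snoc xs a : Fin (n + 1) → V)
        (Sum.map id Fin.castSucc x) = Sum.elim v xs x := by
      intro x
      cases x <;> simp
    rw [BoundedFormula.realize_rel₂]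
    simp only [Term.realize_var, h1, Sum.elim_inr, Fin.snoc_last]
    rfl

/-- `walkF l` is the formula `φ(x; y)` stating that there is a walk of length `l` from `x`
to `y`. -/
def walkF (l : ℕ) : Language.graph.Formula (Fin 1 ⊕ Fin 1) :=
  walkBF l 0 (Sum.inl (Sum.inl 0)) (Sum.inl (Sum.inr 0))

lemma sat_walkF {V : Type} (G : SimpleGraph V) (l : ℕ) (a b : Fin 1 → V) :
    Sat G (walkF l) a b ↔ reach G l (a 0) (b 0) := by
  unfold Sat walkF Formula.Realize
  rw [realize_walkBF]
  simp

end Pool.Agent.Helper18.HD
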